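import Pool.Agent.J4H12.TB.Bas1

/-!
(JAC) Jacobi coordinates.
-/

set_option autoImplicit false

namespace Pool.Agent.J4H48.TB

open Pool.Agent.J4H12.TB

noncomputable section

/-- the bilinear identity behind Jacobi coordinates -/
theorem bil {m0 m1 m2 x0 x1 x2 y0 y1 y2 : ℝ} (h0 : 0 < m0) (h1 : 0 < m1) (h2 : 0 < m2)
    (hx : m0 * x0 + m1 * x1 + m2 * x2 = 0) (hy : m0 * y0 + m1 * y1 + m2 * y2 = 0) :
    m0 * (x0 * y0) + m1 * (x1 * y1) + m2 * (x2 * y2) =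
      (m0 * m1 / (m0 + m1)) * ((x1 - x0) * (y1 - y0)) +
      ((m0 + m1) * m2 / (m0 + m1 + m2)) *
        (((m0 + m1 + m2) / (m0 + m1) * x2) * ((m0 + m1 + m2) / (m0 + m1) * y2)) := by
  have hM : m0 + m1 ≠ 0 := by positivity
  have hS : m0 + m1 + m2 ≠ 0 := by positivity
  field_simp
  linear_combination (m0 * y0 + m1 * y1) * hx - m2 * x2 * hy

theorem inv3 {z z' : ℂ} {R : ℝ} (hR : 0 < R) (h1 : R / 2 ≤ ‖z‖) (h2 : R / 2 ≤ ‖z'‖)
    (h3 : ‖z‖ ≤ 3 * R / 2) (h4 : ‖z'‖ ≤ 3 * R / 2) :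
    ‖((1 / ‖z‖ ^ 3 : ℝ) : ℂ) * z - ((1 / ‖z'‖ ^ 3 : ℝ) : ℂ) * z'‖ ≤ 224 * ‖z - z'‖ / R ^ 3 := by
  obtain ⟨a, ha⟩ : ∃ a, a = ‖z‖ := ⟨_, rfl⟩
  obtain ⟨b, hb⟩ : ∃ b, b = ‖z'‖ := ⟨_, rfl⟩
  obtain ⟨d, hd⟩ : ∃ d, d = ‖z - z'‖ := ⟨_, rfl⟩
  have ha0 : 0 < a := by rw [ha]; linarith
  have hb0 : 0 < b := by rw [hb]; linarith
  have hd0 : 0 ≤ d := by rw [hd]; exact norm_nonneg _
  have hab : |a - b| ≤ d := by rw [ha, hb, hd]; exact abs_norm_sub_norm_le _ _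
  have e : ((1 / ‖z‖ ^ 3 : ℝ) : ℂ) * z - ((1 / ‖z'‖ ^ 3 : ℝ) : ℂ) * z' =
      ((1 / a ^ 3 : ℝ) : ℂ) * (z - z') + ((1 / a ^ 3 - 1 / b ^ 3 : ℝ) : ℂ) * z' := by
    rw [← ha, ← hb]
    push_cast
    ring
  rw [e]
  refine (norm_add_le _ _).trans ?_
  rw [norm_mul, norm_mul, Complex.norm_real, Complex.norm_real, Real.norm_eq_abs, Real.norm_eq_abs,
    ← hd, ← hb, abs_of_pos (by positivity)]
  rw [← ha] at h1 h3
  rw [← hb] at h2 h4
  have h5 : 1 / a ^ 3 ≤ 8 / R ^ 3 := by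
    rw [div_le_div_iff₀ (by positivity) (by positivity)]
    have : (R / 2) ^ 3 ≤ a ^ 3 := pow_le_pow_left₀ (by positivity) h1 3
    nlinarith
  have h6 : |1 / a ^ 3 - 1 / b ^ 3| * b ≤ 216 * d / R ^ 3 := by
    have e2 : 1 / a ^ 3 - 1 / b ^ 3 = (b - a) * ((a ^ 2 + a * b + b ^ 2) / (a ^ 3 * b ^ 3)) := by
      field_simp
      ring
    rw [e2, abs_mul, abs_sub_comm, abs_of_pos (a := (a ^ 2 + a * b + b ^ 2) / (a ^ 3 * b ^ 3))
      (by positivity)]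
    have e3 : |a - b| * ((a ^ 2 + a * b + b ^ 2) / (a ^ 3 * b ^ 3)) * b =
        |a - b| * ((a ^ 2 + a * b + b ^ 2) / (a ^ 3 * b ^ 2)) := by
      field_simp
    rw [e3]
    have h7 : (a ^ 2 + a * b + b ^ 2) / (a ^ 3 * b ^ 2) ≤ 216 / R ^ 3 := by
      rw [div_le_div_iff₀ (by positivity) (by positivity)]
      have g1 : a ^ 2 + a * b + b ^ 2 ≤ 27 / 4 * R ^ 2 := by nlinarith
      have g2 : (R / 2) ^ 3 ≤ a ^ 3 := pow_le_pow_left₀ (by positivity) h1 3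
      have g3 : (R / 2) ^ 2 ≤ b ^ 2 := pow_le_pow_left₀ (by positivity) h2 2
      have g4 : (R / 2) ^ 3 * (R / 2) ^ 2 ≤ a ^ 3 * b ^ 2 := mul_le_mul g2 g3 (by positivity) (by positivity)
      calc (a ^ 2 + a * b + b ^ 2) * R ^ 3 ≤ 27 / 4 * R ^ 2 * R ^ 3 := by gcongr
        _ = 216 * ((R / 2) ^ 3 * (R / 2) ^ 2) := by ring
        _ ≤ 216 * (a ^ 3 * b ^ 2) := by gcongr
    calc |a - b| * ((a ^ 2 + a * b + b ^ 2) / (a ^ 3 * b ^ 2)) ≤ d * (216 / R ^ 3) := by gcongr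
      _ = 216 * d / R ^ 3 := by ring
  calc 1 / a ^ 3 * d + |1 / a ^ 3 - 1 / b ^ 3| * b ≤ 8 / R ^ 3 * d + 216 * d / R ^ 3 := by gcongr
    _ = 224 * d / R ^ 3 := by ring

theorem cm_v {m : Fin 3 → ℝ} {E : ℝ} {q v : Fin 3 → ℝ → ℂ} (h : Sol m E q v) (t : ℝ) :
    (m 0 : ℂ) * v 0 t + m 1 * v 1 t + m 2 * v 2 t = 0 := by
  have h1 : HasDerivAt (fun t => (m 0 : ℂ) * q 0 t + m 1 * q 1 t + m 2 * q 2 t)
      ((m 0 : ℂ) * v 0 t + m 1 * v 1 t + m 2 * v 2 t) t :=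
    (((h.dq 0 t).const_mul _).add ((h.dq 1 t).const_mul _)).add ((h.dq 2 t).const_mul _)
  have h2 : (fun t => (m 0 : ℂ) * q 0 t + m 1 * q 1 t + m 2 * q 2 t) = fun _ => 0 := by
    funext t
    have := h.cm t
    rwa [Fin.sum_univ_three] at this
  rw [h2] at h1
  exact h1.unique (hasDerivAt_const t 0)

theorem t_JAC : S_JAC := by
  intro m hm
  have h0 := hm 0
  have h1 := hm 1
  have h2 := hm 2
  obtain ⟨M, hM⟩ : ∃ M, M = m 0 + m 1 := ⟨_, rfl⟩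
  obtain ⟨S, hS⟩ : ∃ S, S = m 0 + m 1 + m 2 := ⟨_, rfl⟩
  have hM0 : 0 < M := by rw [hM]; positivity
  have hS0 : 0 < S := by rw [hS]; positivity
  refine ⟨m 0 * m 1 / M, M * m 2 / S, M, 2 * m 2 * M + 224 * m 2 + 4 * S, ?_⟩
  intro E q v h
  obtain ⟨r, hr⟩ : ∃ r : ℝ → ℂ, r = fun t => q 1 t - q 0 t := ⟨_, rfl⟩
  obtain ⟨w, hw⟩ : ∃ w : ℝ → ℂ, w = fun t => v 1 t - v 0 t := ⟨_, rfl⟩
  obtain ⟨X, hX⟩ : ∃ X : ℝ → ℂ, X = fun t => ((S / M : ℝ) : ℂ) * q 2 t := ⟨_, rfl⟩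
  obtain ⟨Y, hY⟩ : ∃ Y : ℝ → ℂ, Y = fun t => ((S / M : ℝ) : ℂ) * v 2 t := ⟨_, rfl⟩
  obtain ⟨G, hG⟩ : ∃ G : ℝ → ℂ, G = fun t => ((S / M : ℝ) : ℂ) * acc m q 2 t := ⟨_, rfl⟩
  obtain ⟨F, hF⟩ : ∃ F : ℝ → ℂ, F = fun t => (m 2 : ℂ) *
    (((1 / ‖q 2 t - q 1 t‖ ^ 3 : ℝ) : ℂ) * (q 2 t - q 1 t) -
      ((1 / ‖q 2 t - q 0 t‖ ^ 3 : ℝ) : ℂ) * (q 2 t - q 0 t)) := ⟨_, rfl⟩
  obtain ⟨P, hP⟩ : ∃ P : ℝ → ℝ, P = fun t => m 2 * (m 0 / ‖q 2 t - q 0 t‖ + m 1 / ‖q 2 t - q 1 t‖) :=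
    ⟨_, rfl⟩
  have n10 : ∀ t, 0 < ‖q 1 t - q 0 t‖ := fun t => norm_pos_iff.2 (sub_ne_zero.2 (h.ne t 1 0 (by decide)))
  have n21 : ∀ t, 0 < ‖q 2 t - q 1 t‖ := fun t => norm_pos_iff.2 (sub_ne_zero.2 (h.ne t 2 1 (by decide)))
  have n20 : ∀ t, 0 < ‖q 2 t - q 0 t‖ := fun t => norm_pos_iff.2 (sub_ne_zero.2 (h.ne t 2 0 (by decide)))
  have hcv := cm_v h
  have hMc : (M : ℂ) ≠ 0 := by exact_mod_cast hM0.ne'
  have hcq : ∀ t, (m 0 : ℂ) * q 0 t + m 1 * q 1 t + m 2 * q 2 t = 0 := by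
    intro t
    have := h.cm t
    rwa [Fin.sum_univ_three] at this
  have e21 : ∀ t, q 2 t - q 1 t = X t - ((m 0 / M : ℝ) : ℂ) * r t := by
    intro t
    have h3 := hcq t
    have h4 : (M : ℂ) = m 0 + m 1 := by rw [hM]; push_cast; ring
    have h5 : (S : ℂ) = m 0 + m 1 + m 2 := by rw [hS]; push_cast; ring
    simp only [hX, hr]
    push_cast
    field_simp
    rw [h4, h5]
    linear_combination (-1 : ℂ) * h3
  have e20 : ∀ t, q 2 t - q 0 t = X t + ((m 1 / M : ℝ) : ℂ) * r t := by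
    intro t
    have h3 := hcq t
    have h4 : (M : ℂ) = m 0 + m 1 := by rw [hM]; push_cast; ring
    have h5 : (S : ℂ) = m 0 + m 1 + m 2 := by rw [hS]; push_cast; ring
    simp only [hX, hr]
    push_cast
    field_simp
    rw [h4, h5]
    linear_combination (-1 : ℂ) * h3
  have hrho : ∀ t, rho m q t ^ 2 = m 0 * m 1 / M * ‖r t‖ ^ 2 + M * m 2 / S * ‖X t‖ ^ 2 := by
    intro t
    rw [h.rsq, Fin.sum_univ_three]
    simp only [hr, hX, nsq, Complex.sub_re, Complex.sub_im, Complex.re_ofReal_mul,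
      Complex.im_ofReal_mul]
    have g1 := bil h0 h1 h2 (h.cm_re t) (h.cm_re t)
    have g2 := bil h0 h1 h2 (h.cm_im t) (h.cm_im t)
    rw [← hS, ← hM] at g1 g2
    linear_combination g1 + g2
  have hcvre : ∀ t, m 0 * (v 0 t).re + m 1 * (v 1 t).re + m 2 * (v 2 t).re = 0 := by
    intro t
    have := congrArg Complex.re (hcv t)
    simpa using this
  have hcvim : ∀ t, m 0 * (v 0 t).im + m 1 * (v 1 t).im + m 2 * (v 2 t).im = 0 := by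
    intro t
    have := congrArg Complex.im (hcv t)
    simpa using this
  have hJ : ∀ t, J m q v t = m 0 * m 1 / M * dt (r t) (w t) + M * m 2 / S * dt (X t) (Y t) := by
    intro t
    unfold J dt
    rw [Fin.sum_univ_three]
    simp only [hr, hX, hw, hY, Complex.sub_re, Complex.sub_im, Complex.re_ofReal_mul,
      Complex.im_ofReal_mul]
    have g1 := bil h0 h1 h2 (h.cm_re t) (hcvre t)
    have g2 := bil h0 h1 h2 (h.cm_im t) (hcvim t)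
    rw [← hS, ← hM] at g1 g2
    linear_combination g1 + g2
  have hK : ∀ t, 2 * Kin m v t = m 0 * m 1 / M * ‖w t‖ ^ 2 + M * m 2 / S * ‖Y t‖ ^ 2 := by
    intro t
    unfold Kin
    rw [Fin.sum_univ_three]
    simp only [hw, hY, nsq, Complex.sub_re, Complex.sub_im, Complex.re_ofReal_mul,
      Complex.im_ofReal_mul]
    have g1 := bil h0 h1 h2 (hcvre t) (hcvre t)
    have g2 := bil h0 h1 h2 (hcvim t) (hcvim t)
    rw [← hS, ← hM] at g1 g2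
    linear_combination g1 + g2
  have hU : ∀ t, U m q t = m 0 * m 1 / ‖r t‖ + P t := by
    intro t
    unfold U D
    rw [Fin.sum_univ_three]
    simp only [hr, hP, f3_01, f3_11, f3_21, f3_02, f3_12, f3_22]
    rw [norm_sub_rev (q 0 t) (q 2 t)]
    ring
  refine ⟨r, w, X, Y, F, G, P, ?_, fun t => by rw [hr], fun t => by rw [hw], fun t => by rw [hX, hS, hM],
    hrho, hJ⟩
  refine ⟨by positivity, by positivity, hM0, by positivity, h.Epos, ?_, ?_, ?_, ?_, ?_, ?_, ?_, ?_⟩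
  · intro t
    rw [hr]
    exact sub_ne_zero.2 (h.ne t 1 0 (by decide))
  · intro t
    rw [hr, hw]
    exact (h.dq 1 t).sub (h.dq 0 t)
  · intro t
    have g := (h.dv 1 t).sub (h.dv 0 t)
    rw [hw]
    refine g.congr_deriv ?_
    simp only [acc, hr, hF, f3_01, f3_11, f3_02, f3_12]
    rw [norm_sub_rev (q 0 t) (q 1 t), hM]
    push_cast
    ring
  · intro t
    rw [hX, hY]
    exact (h.dq 2 t).const_mul _
  · intro t
    rw [hY, hG]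
    exact (h.dv 2 t).const_mul _
  · intro t
    have g1 := h.en t
    have g2 := hK t
    have g3 := hU t
    have hr0 : ‖r t‖ ≠ 0 := by rw [hr]; exact (n10 t).ne'
    have g4 : m 0 * m 1 / M * (M / ‖r t‖) = m 0 * m 1 / ‖r t‖ := by field_simp
    linear_combination g1 + g3 - (1 / 2) * g2 - g4
  · intro t
    rw [hP]
    have := n20 t
    have := n21 t
    positivity
  · intro t ht
    have hr0 : 0 < ‖r t‖ := by rw [hr]; exact n10 t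
    have hX0 : 0 < ‖X t‖ := by linarith
    have hm0M : m 0 / M ≤ 1 := by rw [div_le_one hM0, hM]; linarith
    have hm1M : m 1 / M ≤ 1 := by rw [div_le_one hM0, hM]; linarith
    have b1 : ‖((m 0 / M : ℝ) : ℂ) * r t‖ ≤ ‖X t‖ / 2 := by
      rw [norm_mul, Complex.norm_real, Real.norm_eq_abs, abs_of_pos (by positivity)]
      nlinarith
    have b2 : ‖((m 1 / M : ℝ) : ℂ) * r t‖ ≤ ‖X t‖ / 2 := by
      rw [norm_mul, Complex.norm_real, Real.norm_eq_abs, abs_of_pos (by positivity)]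
      nlinarith
    have l1 : ‖X t‖ / 2 ≤ ‖q 2 t - q 1 t‖ := by
      rw [e21]
      have := norm_sub_norm_le (X t) (((m 0 / M : ℝ) : ℂ) * r t)
      linarith
    have l2 : ‖X t‖ / 2 ≤ ‖q 2 t - q 0 t‖ := by
      rw [e20]
      have := norm_sub_norm_le (X t) (-(((m 1 / M : ℝ) : ℂ) * r t))
      rw [norm_neg, sub_neg_eq_add] at this
      linarith
    have u1 : ‖q 2 t - q 1 t‖ ≤ 3 * ‖X t‖ / 2 := by
      rw [e21]
      have := norm_sub_le (X t) (((m 0 / M : ℝ) : ℂ) * r t)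
      linarith
    have u2 : ‖q 2 t - q 0 t‖ ≤ 3 * ‖X t‖ / 2 := by
      rw [e20]
      have := norm_add_le (X t) (((m 1 / M : ℝ) : ℂ) * r t)
      linarith
    have i1 : 1 / ‖q 2 t - q 1 t‖ ≤ 2 / ‖X t‖ := by
      rw [div_le_div_iff₀ (n21 t) hX0]
      linarith
    have i2 : 1 / ‖q 2 t - q 0 t‖ ≤ 2 / ‖X t‖ := by
      rw [div_le_div_iff₀ (n20 t) hX0]
      linarith
    refine ⟨?_, ?_, ?_⟩
    · rw [hP]
      calc m 2 * (m 0 / ‖q 2 t - q 0 t‖ + m 1 / ‖q 2 t - q 1 t‖)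
          = m 2 * (m 0 * (1 / ‖q 2 t - q 0 t‖) + m 1 * (1 / ‖q 2 t - q 1 t‖)) := by ring
        _ ≤ m 2 * (m 0 * (2 / ‖X t‖) + m 1 * (2 / ‖X t‖)) := by gcongr
        _ = (2 * m 2 * M) / ‖X t‖ := by rw [hM]; ring
        _ ≤ _ := by
          gcongr
          nlinarith [mul_pos h2 hM0]
    · rw [hF]
      have g := inv3 hX0 l1 l2 u1 u2
      have e3 : (q 2 t - q 1 t) - (q 2 t - q 0 t) = -r t := by rw [hr]; ring
      rw [e3, norm_neg] at g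
      show ‖(m 2 : ℂ) * (((1 / ‖q 2 t - q 1 t‖ ^ 3 : ℝ) : ℂ) * (q 2 t - q 1 t) -
        ((1 / ‖q 2 t - q 0 t‖ ^ 3 : ℝ) : ℂ) * (q 2 t - q 0 t))‖ ≤ _
      rw [norm_mul, Complex.norm_real, Real.norm_eq_abs, abs_of_pos h2]
      calc m 2 * _ ≤ m 2 * (224 * ‖r t‖ / ‖X t‖ ^ 3) := by gcongr
        _ = (224 * m 2) * ‖r t‖ / ‖X t‖ ^ 3 := by ring
        _ ≤ _ := by
          gcongr
          nlinarith [mul_pos h2 hM0]
    · rw [hG]
      have j : ∀ (z : ℂ) (k : ℝ), 0 < k → 0 < ‖z‖ → ‖((k / ‖z‖ ^ 3 : ℝ) : ℂ) * z‖ = k * (1 / ‖z‖) ^ 2 := by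
        intro z k hk hz
        rw [norm_mul, Complex.norm_real, Real.norm_eq_abs, abs_of_pos (by positivity)]
        field_simp
      have g : ‖acc m q 2 t‖ ≤ m 0 * (2 / ‖X t‖) ^ 2 + m 1 * (2 / ‖X t‖) ^ 2 := by
        unfold acc
        simp only [f3_21, f3_22]
        refine (norm_add_le _ _).trans ?_
        have p1 : 0 < ‖q 0 t - q 2 t‖ := by rw [norm_sub_rev]; exact n20 t
        have p2 : 0 < ‖q 1 t - q 2 t‖ := by rw [norm_sub_rev]; exact n21 t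
        rw [j _ _ h0 p1, j _ _ h1 p2, norm_sub_rev (q 0 t), norm_sub_rev (q 1 t)]
        gcongr
      show ‖((S / M : ℝ) : ℂ) * acc m q 2 t‖ ≤ _
      rw [norm_mul, Complex.norm_real, Real.norm_eq_abs, abs_of_pos (by positivity)]
      calc S / M * ‖acc m q 2 t‖ ≤ S / M * (m 0 * (2 / ‖X t‖) ^ 2 + m 1 * (2 / ‖X t‖) ^ 2) := by
            gcongr
        _ = (4 * S) / ‖X t‖ ^ 2 := by
            rw [← add_mul, ← hM]
            field_simp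
            norm_num
        _ ≤ _ := by
          gcongr
          nlinarith [mul_pos h2 hM0]

end

end Pool.Agent.J4H48.TB
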