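import Pool.Agent.J4H12.TB.Bas1

/-!
(PAIR) data attached to a pair.
-/

set_option autoImplicit false

namespace Pool.Agent.J4H48.TB

open Pool.Agent.J4H12.TB

noncomputable section

theorem fe0 (a : Fin 3) : (2 : Fin 3) + (a + 1) = a := by revert a; decide

theorem fe1 (a : Fin 3) : (2 : Fin 3) + 1 + (a + 1) = a + 1 := by revert a; decide

theorem fe2 (a : Fin 3) : (2 : Fin 3) + 2 + (a + 1) = a + 2 := by revert a; decide

theorem jx {m : Fin 3 → ℝ} {E : ℝ} {q v : Fin 3 → ℝ → ℂ} (h : Sol m E q v) (t : ℝ) :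
    (((m 0 + m 1 + m 2) / (m 0 + m 1) : ℝ) : ℂ) * q 2 t =
      (q 2 t - q 1 t) + ((m 0 / (m 0 + m 1) : ℝ) : ℂ) * (q 1 t - q 0 t) ∧
    (((m 0 + m 1 + m 2) / (m 0 + m 1) : ℝ) : ℂ) * q 2 t =
      (q 2 t - q 0 t) - ((m 1 / (m 0 + m 1) : ℝ) : ℂ) * (q 1 t - q 0 t) := by
  have h0 := h.mpos 0
  have h1 := h.mpos 1
  have hM : (m 0 : ℂ) + m 1 ≠ 0 := by
    have : m 0 + m 1 ≠ 0 := by positivity
    exact_mod_cast this
  have hc := h.cm t
  rw [Fin.sum_univ_three] at hc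
  constructor
  · push_cast
    field_simp
    linear_combination hc
  · push_cast
    field_simp
    linear_combination hc

theorem dir_pos {r X : ℂ} {k : ℝ} (hk : 0 < k) (h : X = (k : ℂ) * r) : r / ‖r‖ = X / ‖X‖ := by
  rw [h, norm_mul, Complex.norm_real, Real.norm_eq_abs, abs_of_pos hk]
  push_cast
  have : (k : ℂ) ≠ 0 := by exact_mod_cast hk.ne'
  rw [mul_div_mul_left _ _ this]

theorem dir_neg {r X : ℂ} {k : ℝ} (hk : 0 < k) (h : X = -((k : ℂ) * r)) : r / ‖r‖ = -(X / ‖X‖) := by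
  have h1 : -X = (k : ℂ) * r := by rw [h]; ring
  have h2 := dir_pos hk h1
  rw [h2, norm_neg, neg_div]

/-- the case of the pair 0, 1 -/
theorem pair2 (hB : S_BAS) (hJ : S_JAC) (hE : S_ESC) (m : Fin 3 → ℝ) (hm : ∀ a, 0 < m a) :
    ∃ μ ν M C L κ c : ℝ, ∀ (E : ℝ) (q v : Fin 3 → ℝ → ℂ), Sol m E q v → Unb q →
      ∃ (r w X Y F G : ℝ → ℂ) (P : ℝ → ℝ), Pair m 2 μ ν M C L κ c E q v r w X Y F G P := by
  obtain ⟨μ, ν, M, C, hJ⟩ := hJ m hm
  obtain ⟨CB, hCB, hB⟩ := hB m hm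
  by_cases hpos : 0 < μ ∧ 0 < ν ∧ 0 < M ∧ 0 < C
  swap
  · refine ⟨0, 0, 0, 0, 0, 0, 0, fun E q v h _ => ?_⟩
    obtain ⟨r, w, X, Y, F, G, P, hT, -⟩ := hJ E q v h
    exact absurd ⟨hT.μ0, hT.ν0, hT.M0, hT.C0⟩ hpos
  obtain ⟨hμ, hν, hM, hC⟩ := hpos
  obtain ⟨L, hL, hE⟩ := hE μ ν M C hμ hν hM hC
  obtain ⟨c, hc⟩ : ∃ c, c = √(min ν (1 / (2 * ν))) := ⟨_, rfl⟩
  have hmin : 0 < min ν (1 / (2 * ν)) := lt_min hν (by positivity)
  have hc0 : 0 < c := by rw [hc]; exact Real.sqrt_pos.2 hmin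
  have hc2 : c ^ 2 = min ν (1 / (2 * ν)) := by rw [hc]; exact Real.sq_sqrt hmin.le
  have hcν : c ^ 2 ≤ ν := by rw [hc2]; exact min_le_left _ _
  have hcν' : c ^ 2 * (2 * ν) ≤ 1 := by
    rw [hc2, ← le_div_iff₀ (by positivity)]
    exact min_le_right _ _
  obtain ⟨κ, hκ⟩ : ∃ κ, κ = min (1 / CB) (min (c / 2) √(1 / (2 * μ))) := ⟨_, rfl⟩
  have hκ0 : 0 < κ := by
    rw [hκ]
    exact lt_min (by positivity) (lt_min (by positivity) (Real.sqrt_pos.2 (by positivity)))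
  have hκ1 : κ ≤ 1 / CB := by rw [hκ]; exact min_le_left _ _
  have hκ2 : 2 * κ ≤ c := by
    have : κ ≤ c / 2 := by rw [hκ]; exact (min_le_right _ _).trans (min_le_left _ _)
    linarith
  have hκ3 : κ ^ 2 * (2 * μ) ≤ 1 := by
    have h1 : κ ≤ √(1 / (2 * μ)) := by rw [hκ]; exact (min_le_right _ _).trans (min_le_right _ _)
    have h2 : κ ^ 2 ≤ √(1 / (2 * μ)) ^ 2 := pow_le_pow_left₀ hκ0.le h1 2
    rw [Real.sq_sqrt (by positivity), le_div_iff₀ (by positivity)] at h2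
    exact h2
  refine ⟨μ, ν, M, C, L, κ, c, fun E q v h hU => ?_⟩
  obtain ⟨r, w, X, Y, F, G, P, hT, hr, hw, hX, hsq, hJJ⟩ := hJ E q v h
  have hbas := hB E q v h
  have hrD : ∀ t, ‖r t‖ = D q 2 t := by
    intro t
    rw [hr]
    rfl
  have hXlo : ∀ t, D q 2 t ≤ κ * rho m q t → c * rho m q t ≤ ‖X t‖ := by
    intro t ht
    have h1 := hsq t
    have h2 := hbas.rpos t
    rw [← hrD] at ht
    have h3 : ‖r t‖ ^ 2 ≤ (κ * rho m q t) ^ 2 := pow_le_pow_left₀ (norm_nonneg _) ht 2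
    apply le_of_sq_le_sq _ (norm_nonneg _)
    have h4 : 2 * μ * ‖r t‖ ^ 2 ≤ rho m q t ^ 2 := by
      calc 2 * μ * ‖r t‖ ^ 2 ≤ 2 * μ * (κ * rho m q t) ^ 2 := by gcongr
        _ = (κ ^ 2 * (2 * μ)) * rho m q t ^ 2 := by ring
        _ ≤ 1 * rho m q t ^ 2 := by gcongr
        _ = _ := one_mul _
    have h5 : rho m q t ^ 2 ≤ 2 * ν * ‖X t‖ ^ 2 := by linarith
    calc (c * rho m q t) ^ 2 = c ^ 2 * rho m q t ^ 2 := by ring
      _ ≤ c ^ 2 * (2 * ν * ‖X t‖ ^ 2) := by gcongr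
      _ = (c ^ 2 * (2 * ν)) * ‖X t‖ ^ 2 := by ring
      _ ≤ 1 * ‖X t‖ ^ 2 := by gcongr
      _ = _ := one_mul _
  refine ⟨r, w, X, Y, F, G, P, hT, hκ0, hc0, hL, hrD, ?_, hsq, hJJ, hXlo, ?_, ?_, ?_, ?_, ?_⟩
  · refine hE E r w X Y F G P hT ?_ ?_
    · intro T B
      obtain ⟨t, h1, h2⟩ := (hU 2).1 T B
      exact ⟨t, h1, by rw [hrD]; exact h2⟩
    · intro T B
      obtain ⟨t, h1, h2⟩ := (hU 2).2 T B
      exact ⟨t, h1, by rw [hrD]; exact h2⟩
  · intro t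
    have h1 := hsq t
    have h2 := hbas.rpos t
    apply le_of_sq_le_sq _ h2.le
    have h3 : 0 ≤ μ * ‖r t‖ ^ 2 := by positivity
    calc (c * ‖X t‖) ^ 2 = c ^ 2 * ‖X t‖ ^ 2 := by ring
      _ ≤ ν * ‖X t‖ ^ 2 := by gcongr
      _ ≤ _ := by linarith
  · intro t ht
    have h1 := hXlo t ht
    have h2 := hbas.rpos t
    rw [hrD]
    nlinarith
  · intro t ht hecl
    have h2 := hbas.rpos t
    obtain ⟨x, y, hx, hy, hxy, hz⟩ := hecl
    have e1 : q (2 + 1) t = q 0 t := rfl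
    have e2 : q (2 + 2) t = q 1 t := rfl
    rw [e1, e2] at hz
    have hz' : (x : ℂ) * q 0 t + (y : ℂ) * q 1 t = q 2 t := by
      rw [← hz]
      simp
    have hxyc : (x : ℂ) + y = 1 := by exact_mod_cast hxy
    -- the side opposite to `0`
    have h3 : D q 0 t ≤ D q 2 t := by
      have g1 : q (0 + 2) t - q (0 + 1) t = -((x : ℂ) * (q (2 + 2) t - q (2 + 1) t)) := by
        show q 2 t - q 1 t = -((x : ℂ) * (q 1 t - q 0 t))
        rw [← hz']
        linear_combination (q 1 t) * hxyc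
      unfold D
      rw [g1, norm_neg, norm_mul, Complex.norm_real, Real.norm_eq_abs, abs_of_pos hx]
      have := norm_nonneg (q (2 + 2) t - q (2 + 1) t)
      nlinarith
    have h4 : κ * rho m q t ≤ rho m q t / CB := by
      calc κ * rho m q t ≤ 1 / CB * rho m q t := by gcongr
        _ = _ := by ring
    have := hbas.one t 2 0 (ht.trans h4) ((h3.trans ht).trans h4)
    exact absurd this (by decide)
  · -- body 0 is between 1 and 2
    intro t hecl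
    obtain ⟨x, y, hx, hy, hxy, hz⟩ := hecl
    have hz' : (x : ℂ) * q 1 t + (y : ℂ) * q 2 t = q 0 t := by
      have : x • q 1 t + y • q 2 t = q 0 t := hz
      rw [← this]
      simp
    have hxyc : (x : ℂ) + y = 1 := by exact_mod_cast hxy
    have hyc : (y : ℂ) ≠ 0 := by exact_mod_cast hy.ne'
    have h0 := h.mpos 0
    have h1 := h.mpos 1
    have hk : 0 < x / y + m 1 / (m 0 + m 1) := by positivity
    refine dir_neg hk ?_
    rw [hX, (jx h t).2, hr]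
    have g : q 2 t - q 0 t = -((x / y : ℝ) : ℂ) * (q 1 t - q 0 t) := by
      push_cast
      field_simp
      linear_combination hz' - (q 0 t) * hxyc
    rw [g]
    push_cast
    ring
  · -- body 1 is between 2 and 0
    intro t hecl
    obtain ⟨x, y, hx, hy, hxy, hz⟩ := hecl
    have hz' : (x : ℂ) * q 2 t + (y : ℂ) * q 0 t = q 1 t := by
      have : x • q 2 t + y • q 0 t = q 1 t := hz
      rw [← this]
      simp
    have hxyc : (x : ℂ) + y = 1 := by exact_mod_cast hxy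
    have hxc : (x : ℂ) ≠ 0 := by exact_mod_cast hx.ne'
    have h0 := h.mpos 0
    have h1 := h.mpos 1
    have hk : 0 < y / x + m 0 / (m 0 + m 1) := by positivity
    refine dir_pos hk ?_
    rw [hX, (jx h t).1, hr]
    have g : q 2 t - q 1 t = ((y / x : ℝ) : ℂ) * (q 1 t - q 0 t) := by
      push_cast
      field_simp
      linear_combination hz' - (q 1 t) * hxyc
    rw [g]
    push_cast
    ring

theorem t_PAIR (hB : S_BAS) (hC : S_CYC) (hJ : S_JAC) (hE : S_ESC) : S_PAIR := by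
  intro m hm a
  obtain ⟨μ, ν, M, C, L, κ, c, h⟩ := pair2 hB hJ hE (fun i => m (i + (a + 1))) (fun i => hm _)
  refine ⟨μ, ν, M, C, L, κ, c, fun E q v hS hU => ?_⟩
  obtain ⟨hS', hinv⟩ := hC m E q v (a + 1) hS
  have hU' : Unb (fun i => q (i + (a + 1))) := by
    intro b
    obtain ⟨h1, h2⟩ := hU (b + (a + 1))
    refine ⟨fun T B => ?_, fun T B => ?_⟩
    · obtain ⟨t, g1, g2⟩ := h1 T B
      exact ⟨t, g1, by rw [(hinv t).2.2.2.2.1 b]; exact g2⟩
    · obtain ⟨t, g1, g2⟩ := h2 T B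
      exact ⟨t, g1, by rw [(hinv t).2.2.2.2.1 b]; exact g2⟩
  obtain ⟨r, w, X, Y, F, G, P, hP⟩ := h E _ _ hS' hU'
  have e0 := fe0 a
  have e1 := fe1 a
  have e2 := fe2 a
  have hD : ∀ t, D (fun i => q (i + (a + 1))) 2 t = D q a t := by
    intro t
    rw [(hinv t).2.2.2.2.1 2, e0]
  have hrho : ∀ t, rho (fun i => m (i + (a + 1))) (fun i => q (i + (a + 1))) t = rho m q t :=
    fun t => (hinv t).1
  have hecl : ∀ t b, Ecl (fun i => q (i + (a + 1))) b t ↔ Ecl q (b + (a + 1)) t :=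
    fun t b => (hinv t).2.2.2.2.2.2.2 b
  refine ⟨r, w, X, Y, F, G, P, hP.two, hP.κ0, hP.c0, hP.L0, ?_, hP.esc, ?_, ?_, ?_, ?_, ?_, ?_, ?_, ?_⟩
  · intro t
    rw [hP.hr t, hD]
  · intro t
    rw [← hrho]
    exact hP.sq t
  · intro t
    rw [← (hinv t).2.1]
    exact hP.hJ t
  · intro t ht
    rw [← hD, ← hrho] at ht
    rw [← hrho]
    exact hP.Xlo t ht
  · intro t
    rw [← hrho]
    exact hP.Xup t
  · intro t ht
    rw [← hD, ← hrho] at ht
    exact hP.two' t ht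
  · intro t ht
    rw [← hD, ← hrho] at ht
    have := hP.ecl0 t ht
    rwa [hecl, e0] at this
  · intro t ht
    apply hP.ecl1
    rw [hecl, e1]
    exact ht
  · intro t ht
    apply hP.ecl2
    rw [hecl, e2]
    exact ht

end

end Pool.Agent.J4H48.TB
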