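import Pool.Agent.J4H12.TB.Bas1

/-!
(SPD) the speed bound.
-/

set_option autoImplicit false

namespace Pool.Agent.J4H48.TB

open Pool.Agent.J4H12.TB

noncomputable section

theorem dt_abs (z w : ℂ) : |dt z w| ≤ ‖z‖ * ‖w‖ := by
  apply abs_le_of_sq_le_sq _ (by positivity)
  rw [mul_pow, nsq, nsq]
  unfold dt
  nlinarith [sq_nonneg (z.re * w.im - z.im * w.re)]

theorem spd_close {m : Fin 3 → ℝ} {a : Fin 3} {μ ν M C L κ c E : ℝ} {q v : Fin 3 → ℝ → ℂ}
    {r w X Y F G : ℝ → ℂ} {P : ℝ → ℝ} (hp : Pair m a μ ν M C L κ c E q v r w X Y F G P) {t : ℝ}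
    (hr : 0 < rho m q t) (ht : D q a t ≤ κ * rho m q t) :
    (J m q v t / rho m q t) ^ 2 ≤
      (8 + ((8 * C + 4 * μ * L) / c + 4 * M * κ * μ ^ 2)) * (E + 1 / rho m q t) := by
  obtain ⟨ρ, hρ⟩ : ∃ ρ, ρ = rho m q t := ⟨_, rfl⟩
  have hT := hp.two
  have hμ := hT.μ0
  have hν := hT.ν0
  have hM := hT.M0
  have hC := hT.C0
  have hE := hT.E0
  have hc := hp.c0
  have hL := hp.L0
  have hκ := hp.κ0
  obtain ⟨x, hx⟩ : ∃ x, x = ‖r t‖ := ⟨_, rfl⟩
  obtain ⟨y, hy⟩ : ∃ y, y = ‖X t‖ := ⟨_, rfl⟩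
  obtain ⟨a', ha'⟩ : ∃ a', a' = ‖w t‖ := ⟨_, rfl⟩
  obtain ⟨b', hb'⟩ : ∃ b', b' = ‖Y t‖ := ⟨_, rfl⟩
  obtain ⟨e, he⟩ : ∃ e, e = eps M r w t := ⟨_, rfl⟩
  have hx0 : 0 < x := by rw [hx]; exact norm_pos_iff.2 (hT.r0 t)
  have hyρ : c * ρ ≤ y := by rw [hρ, hy]; exact hp.Xlo t ht
  rw [← hρ] at hr ht
  have hy0 : 0 < y := by nlinarith [mul_pos hc hr]
  have hxκ : x ≤ κ * ρ := by rw [hx, hp.hr t]; exact ht
  have hsq : ρ ^ 2 = μ * x ^ 2 + ν * y ^ 2 := by rw [hρ, hx, hy]; exact hp.sq t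
  have hesc : -L ≤ e * y := by rw [he, hy]; exact hp.esc t
  have hP := (hT.far t (hp.two' t (by rw [← hρ]; exact ht))).1
  rw [← hy] at hP
  have hP0 := hT.P0 t
  have hen := hT.en t
  have hee : e = a' ^ 2 / 2 - M / x := by rw [he, ha', hx]; rfl
  have hen' : μ * e + ν * b' ^ 2 / 2 - P t = E := by
    rw [hee, ha', hx, hb']
    exact hen
  -- bounds
  have hyinv : 1 / y ≤ 1 / (c * ρ) := one_div_le_one_div_of_le (by positivity) hyρ
  have hPb : P t ≤ C / (c * ρ) := by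
    refine hP.trans ?_
    rw [div_eq_mul_one_div, div_eq_mul_one_div C]
    gcongr
  have heb : -(L / (c * ρ)) ≤ e := by
    have h1 : -(L / y) ≤ e := by
      rw [neg_le, ← neg_neg (L / y), neg_le_neg_iff] at *
      have : -e ≤ L / y := by
        rw [le_div_iff₀ hy0]
        linarith
      linarith
    have h2 : L / y ≤ L / (c * ρ) := by
      rw [div_eq_mul_one_div, div_eq_mul_one_div L]
      gcongr
    linarith
  have hY : ν * b' ^ 2 ≤ 2 * (E + (μ * L + C) / (c * ρ)) := by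
    have h1 : -(μ * (L / (c * ρ))) ≤ μ * e := by
      have := mul_le_mul_of_nonneg_left heb hμ.le
      linarith
    have h2 : (μ * L + C) / (c * ρ) = μ * (L / (c * ρ)) + C / (c * ρ) := by ring
    rw [h2]
    linarith
  have hw : μ * a' ^ 2 ≤ 2 * (E + C / (c * ρ)) + 2 * μ * M / x := by
    have h1 : μ * e ≤ E + C / (c * ρ) := by
      have : 0 ≤ ν * b' ^ 2 / 2 := by positivity
      linarith
    have h2 : μ * e = μ * a' ^ 2 / 2 - μ * M / x := by rw [hee]; ring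
    have h3 : 2 * μ * M / x = 2 * (μ * M / x) := by ring
    rw [h3]
    linarith
  have hJ : |J m q v t| ≤ μ * (x * a') + ν * (y * b') := by
    rw [hp.hJ t]
    refine (abs_add_le _ _).trans ?_
    rw [abs_mul, abs_mul, abs_of_pos hμ, abs_of_pos hν, hx, hy, ha', hb']
    gcongr
    · exact dt_abs _ _
    · exact dt_abs _ _
  have hJ2 : J m q v t ^ 2 ≤ 2 * (μ * (x * a')) ^ 2 + 2 * (ν * (y * b')) ^ 2 := by
    have ha0 : 0 ≤ a' := by rw [ha']; exact norm_nonneg _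
    have hb0 : 0 ≤ b' := by rw [hb']; exact norm_nonneg _
    have h1 : J m q v t ^ 2 ≤ (μ * (x * a') + ν * (y * b')) ^ 2 := by
      rw [← sq_abs]
      exact pow_le_pow_left₀ (abs_nonneg _) hJ 2
    nlinarith [sq_nonneg (μ * (x * a') - ν * (y * b'))]
  -- first part
  have hA : (μ * (x * a')) ^ 2 ≤ ρ ^ 2 * (2 * (E + C / (c * ρ)) + 2 * M * κ * μ ^ 2 / ρ) := by
    have h1 : (μ * (x * a')) ^ 2 = μ * x ^ 2 * (μ * a' ^ 2) := by ring
    rw [h1]
    calc μ * x ^ 2 * (μ * a' ^ 2) ≤ μ * x ^ 2 * (2 * (E + C / (c * ρ)) + 2 * μ * M / x) := by gcongr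
      _ = (μ * x ^ 2) * (2 * (E + C / (c * ρ))) + 2 * μ ^ 2 * M * x := by field_simp
      _ ≤ ρ ^ 2 * (2 * (E + C / (c * ρ))) + 2 * μ ^ 2 * M * (κ * ρ) := by
          have : μ * x ^ 2 ≤ ρ ^ 2 := by
            have : 0 ≤ ν * y ^ 2 := by positivity
            linarith
          gcongr
      _ = _ := by field_simp
  have hB : (ν * (y * b')) ^ 2 ≤ ρ ^ 2 * (2 * (E + (μ * L + C) / (c * ρ))) := by
    have h1 : (ν * (y * b')) ^ 2 = ν * y ^ 2 * (ν * b' ^ 2) := by ring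
    rw [h1]
    have h2 : ν * y ^ 2 ≤ ρ ^ 2 := by
      have : 0 ≤ μ * x ^ 2 := by positivity
      linarith
    have h3 : 0 ≤ ν * b' ^ 2 := by positivity
    exact mul_le_mul h2 hY h3 (by positivity)
  rw [← hρ, div_pow, div_le_iff₀ (by positivity)]
  calc J m q v t ^ 2 ≤ 2 * (μ * (x * a')) ^ 2 + 2 * (ν * (y * b')) ^ 2 := hJ2
    _ ≤ 2 * (ρ ^ 2 * (2 * (E + C / (c * ρ)) + 2 * M * κ * μ ^ 2 / ρ)) +
        2 * (ρ ^ 2 * (2 * (E + (μ * L + C) / (c * ρ)))) := by gcongr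
    _ = (8 * E + ((8 * C + 4 * μ * L) / c + 4 * M * κ * μ ^ 2) * (1 / ρ)) * ρ ^ 2 := by
        field_simp
        ring
    _ ≤ (8 + ((8 * C + 4 * μ * L) / c + 4 * M * κ * μ ^ 2)) * (E + 1 / ρ) * ρ ^ 2 := by
        have h1 : 0 ≤ (8 * C + 4 * μ * L) / c + 4 * M * κ * μ ^ 2 := by positivity
        have h2 : 0 < 1 / ρ := by positivity
        have h3 : 8 * E + ((8 * C + 4 * μ * L) / c + 4 * M * κ * μ ^ 2) * (1 / ρ) ≤
            (8 + ((8 * C + 4 * μ * L) / c + 4 * M * κ * μ ^ 2)) * (E + 1 / ρ) := by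
          have h4 := mul_nonneg h1 hE.le
          nlinarith
        gcongr

theorem t_SPD (hB : S_BAS) (hP : S_PAIR) : S_SPD := by
  intro m hm
  obtain ⟨CB, hCB, hB⟩ := hB m hm
  choose μ ν M C L κ c hP using hP m hm
  obtain ⟨Va, hVa⟩ : ∃ Va : Fin 3 → ℝ, Va = fun a => 8 + ((8 * C a + 4 * μ a * L a) / c a +
    4 * M a * κ a * μ a ^ 2) := ⟨_, rfl⟩
  obtain ⟨K, hK⟩ : ∃ K : ℝ, K = ∑ a : Fin 3, m (a + 1) * m (a + 2) / κ a := ⟨_, rfl⟩
  refine ⟨2 + 2 * |K| + ∑ a, |Va a|, ?_, ?_⟩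
  · have : 0 ≤ ∑ a, |Va a| := Finset.sum_nonneg fun _ _ => abs_nonneg _
    have := abs_nonneg K
    linarith
  intro E q v h hU t
  have hb := hB E q v h
  have hr := hb.rpos t
  have hE := h.Epos
  have hE1 : 0 < E + 1 / rho m q t := by positivity
  have hV0 : 0 ≤ ∑ a, |Va a| := Finset.sum_nonneg fun _ _ => abs_nonneg _
  by_cases hcl : ∃ a, D q a t ≤ κ a * rho m q t
  · obtain ⟨a, ha⟩ := hcl
    obtain ⟨r, w, X, Y, F, G, P, hp⟩ := hP a E q v h hU
    refine (spd_close hp hr ha).trans ?_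
    apply mul_le_mul_of_nonneg_right _ hE1.le
    have h1 : Va a ≤ ∑ a, |Va a| :=
      (le_abs_self _).trans (Finset.single_le_sum (f := fun a => |Va a|)
        (fun _ _ => abs_nonneg _) (Finset.mem_univ a))
    have h2 := abs_nonneg K
    rw [hVa] at h1
    rw [hVa]
    show 8 + ((8 * C a + 4 * μ a * L a) / c a + 4 * M a * κ a * μ a ^ 2) ≤ _
    have h3 : 8 + ((8 * C a + 4 * μ a * L a) / c a + 4 * M a * κ a * μ a ^ 2) ≤ _ := h1
    linarith
  · push Not at hcl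
    have hκ : ∀ a, 0 < κ a := by
      intro a
      obtain ⟨r, w, X, Y, F, G, P, hp⟩ := hP a E q v h hU
      exact hp.κ0
    have hUb : U m q t ≤ K / rho m q t := by
      rw [hK, Finset.sum_div]
      unfold U
      apply Finset.sum_le_sum
      intro a _
      rw [div_div]
      have h1 := hcl a
      have h2 := hκ a
      have h3 := hm (a + 1)
      have h4 := hm (a + 2)
      gcongr
    have hW := hb.W0 t
    rw [hb.WU t] at hW
    have hK0 : K ≤ |K| := le_abs_self K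
    have hρ : 0 < 1 / rho m q t := by positivity
    calc (J m q v t / rho m q t) ^ 2 ≤ 2 * E + 2 * (K / rho m q t) := by linarith
      _ = 2 * E + (2 * K) * (1 / rho m q t) := by ring
      _ ≤ 2 * E + (2 * |K|) * (1 / rho m q t) := by gcongr
      _ ≤ (2 + 2 * |K|) * (E + 1 / rho m q t) := by
          have := abs_nonneg K
          nlinarith [mul_nonneg this hE.le]
      _ ≤ _ := by
          apply mul_le_mul_of_nonneg_right _ hE1.le
          linarith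

end

end Pool.Agent.J4H48.TB
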